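import Pool.Agent.H23.BootP4

namespace Pool.Agent.Results.MP_000f96_co.PercGap

open Pool.Agent.H23.Boot

lemma upper (n : ℕ) : maxTimeP HH n ≤ 129 * n + 26 := by
  apply csSup_le'
  rintro t ⟨G, hG, rfl⟩
  simpa using perc_upper hG

theorem full :
    (¬ ∀ (W : Type) [Fintype W] (H : SimpleGraph W), ∃ (C : ℝ) (N : ℕ), ∀ n ≥ N,
      (maxTime H n : ℝ) ≤ C * maxTimeP H n) ∧
    (∀ n : ℕ, maxTimeP HH n ≤ 129 * n + 26) ∧
    (∀ K : ℕ, ∃ N : ℕ, ∀ n ≥ N, K * n ≤ maxTime HH n) := by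
  refine ⟨fun h => ?_, upper, HH_lower⟩
  obtain ⟨C, N, hC⟩ := h _ HH
  obtain ⟨c, hc⟩ := exists_nat_ge C
  obtain ⟨N', hN'⟩ := HH_lower (155 * c + 1)
  set n := N + N' + 1 with hn
  have h1 := hC n (by omega)
  have h2 : (((155 * c + 1) * n : ℕ) : ℝ) ≤ maxTime HH n := by exact_mod_cast hN' n (by omega)
  have h3 : (maxTimeP HH n : ℝ) ≤ 155 * n := by
    exact_mod_cast (show maxTimeP HH n ≤ 155 * n by have := upper n; omega)
  have h4 : (1 : ℝ) ≤ n := by exact_mod_cast (show 1 ≤ n by omega)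
  have h5 : C * maxTimeP HH n ≤ c * (155 * n) :=
    mul_le_mul hc h3 (Nat.cast_nonneg _) (Nat.cast_nonneg _)
  push_cast at h2
  nlinarith

theorem result :
    ¬ ∀ (W : Type) [Fintype W] (H : SimpleGraph W), ∃ (C : ℝ) (N : ℕ), ∀ n ≥ N,
      (maxTime H n : ℝ) ≤ C * maxTimeP H n :=
  full.1

end Pool.Agent.Results.MP_000f96_co.PercGap
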